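import Pool.Agent.N121.BF.Fin

/-!
# The period conjecture over arbitrary base fields, in growing degree and height, for 100% of all hyperelliptic curves

Let `w_0 = 1, w_1, …, w_q` be arbitrary complex numbers and `Λ = ℤ w_0 + … + ℤ w_q` (for example the ring of integers of a
number field, the polynomials of degree at most `q` in a transcendental number, or a group which contains `π`, `e` and
periods of other motives; every finitely generated group of elements of a base field `k ⊂ ℂ` is contained in such a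
`Λ ⊂ k`). Coefficients `b` give polynomials `F_j ∈ Λ[x]` of degree at most `n_j + 1`, with the coefficients
`∑_i b_(j,m,i) w_i`, and the curves `y² = F_j(x)`. They are ordered by `|b_(j,m,i)| ≤ T`.

The motivic torsor of the product of the curves (restricted to the spaces `H¹` and to the multiplier) is contained in
the torsor below, given by the polarisations. For 100% of the tuples of curves all relations between the periods with
coefficients in the group generated by `ω(T)` arbitrary complex numbers `ξ` (for instance by the monomials in the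
generators of the base field `k`, in `2πi` and in the periods of any other motive `M₀` over `k`), of degree at most `ω(T)`
and height at most `T ^ ω(T)`, hold on the fibre of the torsor over `2πi`, where `ω(T) → ∞`; and all relations over number
fields between the periods and `2πi` hold on the whole torsor.
-/

set_option autoImplicit false

open Polynomial NumberField Filter

namespace Pool.Agent.Results.MP_12eca1_ag.CurvesOverArbitraryFields

variable {N : ℕ}

/-- twice the genus of the curves `y² = F(x)`, `F` of degree `m + 1` -/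
abbrev dim (m : ℕ) : ℕ := 2 * (m / 2)

/-- the indices of the coefficients -/
abbrev Coef (n : Fin N → ℕ) (q : ℕ) : Type := (Σ j, Fin (n j + 2)) × Fin (q + 1)

/-- the polynomials `F_j = ∑ (∑_i b_(j,m,i) w_i) x ^ m`, `m ≤ n_j + 1` -/
noncomputable def pol (n : Fin N → ℕ) {q : ℕ} (w : Fin (q + 1) → ℂ) (b : Coef n q → ℤ) (j : Fin N) : ℂ[X] :=
  ∑ m : Fin (n j + 2), C (∑ i, w i * (b (⟨j, m⟩, i) : ℂ)) * X ^ (m : ℕ)

/-- the tuples with `|b_(j,m,i)| ≤ T` -/
noncomputable def Box (n : Fin N → ℕ) (q T : ℕ) : Finset (Coef n q → ℤ) :=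
  Fintype.piFinset fun _ => Finset.Icc (-(T : ℤ)) T

/-- `F` has degree `m + 1` and its roots are `e`, in increasing order with respect to `re + im` (so they are
distinct) -/
def Branch {m : ℕ} (F : ℂ[X]) (e : Fin (m + 1) → ℂ) : Prop :=
  F.coeff (m + 1) ≠ 0 ∧ F = C (F.coeff (m + 1)) * ∏ r, (X - C (e r)) ∧
    ∀ r s, r < s → (e r).re + (e r).im < (e s).re + (e s).im

/-- a branch of the square root of `c ∏ (x - e i)`, for `x` on the segment from `e l` to `e (l + 1)`: all
arguments of the principal square roots have real part `≥ 0`, up to the first two (constant) factors -/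
noncomputable def root {m : ℕ} (c : ℂ) (e : Fin (m + 1) → ℂ) (l : Fin m) (x : ℂ) : ℂ :=
  ((1 + Complex.I) ^ (1 / 2 : ℂ)) ^ (m + 2) * (c / (1 + Complex.I)) ^ (1 / 2 : ℂ) *
    Complex.I ^ (m % 2 + (l : ℕ) % 2) *
    ∏ i : Fin (m + 1), ((if (i : ℕ) ≤ l then x - e i else e i - x) / (1 + Complex.I)) ^ (1 / 2 : ℂ)

/-- the point of the segment from `p` to `q` -/
noncomputable def seg (p q : ℂ) (t : ℝ) : ℂ := (1 - t) * p + t * q

/-- the period `∮ x ^ j dx / y`, `y² = c ∏ (x - e i)`, over the loop around the segment from `e l` to `e (l + 1)`, that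
is twice the integral over the segment -/
noncomputable def period {m : ℕ} (c : ℂ) (e : Fin (m + 1) → ℂ) (l j : Fin m) : ℂ :=
  2 * ∫ t in (0 : ℝ)..1, (seg (e l.castSucc) (e l.succ) t) ^ (j : ℕ) /
    root c e l (seg (e l.castSucc) (e l.succ) t) * (e l.succ - e l.castSucc)

/-- the `i`-th form is `∑ form m F i k * x ^ k dx / y`: for `i < g = ⌊m / 2⌋` it is `x ^ i dx / y`, and for `i = g + i'`
it is the form of the second kind `∑_(i'<k) (i' - k)/2 c_(i'+k+2) x ^ k dx / y`, where `F = ∑ c_k x ^ k` -/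
noncomputable def form (m : ℕ) (F : ℂ[X]) (i k : ℕ) : ℂ :=
  if i < m / 2 then (if k = i then 1 else 0) else
    (if i - m / 2 < k then (((i - m / 2 : ℕ) : ℂ) - (k : ℂ)) / 2 * F.coeff (i - m / 2 + k + 2) else 0)

/-- the matrix of the periods of the `2 g` forms over the first `2 g` loops, `g = ⌊m / 2⌋` -/
noncomputable def periods {m : ℕ} (F : ℂ[X]) (e : Fin (m + 1) → ℂ) : Matrix (Fin (dim m)) (Fin (dim m)) ℂ :=
  Matrix.of fun l i => ∑ k : Fin m,
    period (F.coeff (m + 1)) e (Fin.castLE (by unfold dim; omega) l) k * form m F (i : ℕ) (k : ℕ)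

/-- the polarisation in terms of the forms: the standard symplectic matrix -/
def polDR (m : ℕ) : Matrix (Fin (dim m)) (Fin (dim m)) ℚ :=
  Matrix.of fun r s => if (s : ℕ) = r + m / 2 then 1 else if (r : ℕ) = s + m / 2 then -1 else 0

/-- the polarisation in terms of the loops: `2 (-1) ^ r` at `(r, s)`, `|r - s| = 1` -/
def polB (m : ℕ) : Matrix (Fin (dim m)) (Fin (dim m)) ℚ :=
  Matrix.of fun r s => if (r : ℕ) = s + 1 ∨ (s : ℕ) = r + 1 then 2 * (-1) ^ (r : ℕ) else 0

/-- the complex points of the torsor: matrices `X_j` and `lam ≠ 0` with `X_j polDR X_jᵀ = lam polB` (a torsor under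
`{(g_1, …, g_N) : g_j ∈ GSp_(2g_j), equal multipliers}`) -/
def Torsor (n : Fin N → ℕ) : Set ((∀ j, Matrix (Fin (dim (n j))) (Fin (dim (n j))) ℂ) × ℂ) :=
  {x | x.2 ≠ 0 ∧ ∀ j, x.1 j * (polDR (n j)).map (algebraMap ℚ ℂ) * (x.1 j).transpose =
    x.2 • (polB (n j)).map (algebraMap ℚ ℂ)}

/-- the indices of the entries of the matrices -/
abbrev Ind (n : Fin N → ℕ) : Type := Σ j, Fin (dim (n j)) × Fin (dim (n j))

/-- the entries of the matrices `X_j` -/
def entries {n : Fin N → ℕ} (X : ∀ j, Matrix (Fin (dim (n j))) (Fin (dim (n j))) ℂ) : Ind n → ℂ :=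
  fun q => X q.1 q.2.1 q.2.2

/-- the point with coordinates the entries of the matrices `X j` and `lam` -/
def point {n : Fin N → ℕ} (X : ∀ j, Matrix (Fin (dim (n j))) (Fin (dim (n j))) ℂ) (lam : ℂ) :
    Option (Ind n) → ℂ := fun o => o.elim lam (entries X)

/-- every relation `∑ ξ_b P_b(X) = 0`, `b < k`, `P_b` integral polynomials of degree `≤ k` with coefficients `≤ H` in
absolute value, holds on the fibre of the torsor over `2πi` -/
def RelativeGPC (n : Fin N → ℕ) (X : ∀ j, Matrix (Fin (dim (n j))) (Fin (dim (n j))) ℂ) (k : ℕ)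
    (ξ : Fin k → ℂ) (H : ℝ) : Prop :=
  ∀ P : Fin k → MvPolynomial (Ind n) ℤ, (∀ b, (P b).totalDegree ≤ k) →
    (∀ b s, |(((P b).coeff s : ℤ) : ℝ)| ≤ H) → ∑ b, ξ b * MvPolynomial.aeval (entries X) (P b) = 0 →
    ∀ Y, (Y, (2 * Real.pi * Complex.I : ℂ)) ∈ Torsor n → ∑ b, ξ b * MvPolynomial.aeval (entries Y) (P b) = 0

/-- every polynomial `P` of degree `≤ k` with coefficients in the ring of integers of a number field of degree `≤ k`,
all conjugates of the coefficients being `≤ H` in absolute value, with `P(X, 2πi) = 0`, vanishes on the torsor -/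
def BoundedGPC (n : Fin N → ℕ) (X : ∀ j, Matrix (Fin (dim (n j))) (Fin (dim (n j))) ℂ) (k : ℕ) (H : ℝ) :
    Prop :=
  ∀ (K : Type) [Field K] [NumberField K] (φ : K →+* ℂ) (P : MvPolynomial (Option (Ind n)) (𝓞 K)),
    Module.finrank ℚ K ≤ k → P.totalDegree ≤ k →
    (∀ s (ψ : K →+* ℂ), ‖ψ (algebraMap (𝓞 K) K (P.coeff s))‖ ≤ H) →
    (P.map (φ.comp (algebraMap (𝓞 K) K))).eval (point X (2 * Real.pi * Complex.I)) = 0 →
    ∀ x ∈ Torsor n, (P.map (φ.comp (algebraMap (𝓞 K) K))).eval (point x.1 x.2) = 0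

/-- Let `N ≥ 1`, let `n_1, …, n_N` be natural numbers and let `w_0 = 1, w_1, …, w_q` be complex numbers. There is
`ω : ℕ → ℕ`, `ω(T) → ∞`, such that for all `ε > 0` and `T ≥ T₀(ε)` and all complex numbers `ξ_b`, `b < ω(T)`, all but a
proportion `ε` of the tuples `b` with `|b_(j,m,i)| ≤ T` satisfy: `F_j` has degree `n_j + 1` and distinct roots, with
distinct `re + im`; the period matrices of the curves `y² = F_j(x)` and `2πi` form a point of the torsor; all relations of
degree `≤ ω(T)` between the periods with coefficients `∑ c_b ξ_b`, `c_b` integers, `|c_b| ≤ T ^ ω(T)`, hold on the fibre of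
the torsor over `2πi`; all relations of degree `≤ ω(T)` and size `≤ T ^ ω(T)` over number fields of degree `≤ ω(T)` between
the periods and `2πi` hold on the torsor. -/
theorem result (hN : 1 ≤ N) (n : Fin N → ℕ) (q : ℕ) (w : Fin (q + 1) → ℂ) (hw : w 0 = 1) :
    ∃ ω : ℕ → ℕ, Tendsto ω atTop atTop ∧ ∀ ε : ℝ, 0 < ε → ∃ T₀ : ℕ, ∀ T : ℕ, T₀ ≤ T → ∀ ξ : Fin (ω T) → ℂ,
      ∃ E ⊆ Box n q T, (E.card : ℝ) ≤ ε * (Box n q T).card ∧ ∀ b ∈ Box n q T, b ∉ E →
        ∃ e : ∀ j, Fin (n j + 1) → ℂ, (∀ j, Branch (pol n w b j) (e j)) ∧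
          ((fun j => periods (pol n w b j) (e j)), (2 * Real.pi * Complex.I : ℂ)) ∈ Torsor n ∧
          RelativeGPC n (fun j => periods (pol n w b j) (e j)) (ω T) ξ ((T : ℝ) ^ ω T) ∧
          BoundedGPC n (fun j => periods (pol n w b j) (e j)) (ω T) ((T : ℝ) ^ ω T) := by
  have : Nonempty (Fin N) := ⟨⟨0, hN⟩⟩
  obtain ⟨ω, hω, H⟩ := Pool.Agent.N121.BF.main n hw
  refine ⟨ω, hω, fun ε hε => ?_⟩
  obtain ⟨T₀, hT₀⟩ := H ε hε
  refine ⟨T₀, fun T hT ξ => ?_⟩
  obtain ⟨E, hE1, hE2, hE3⟩ := hT₀ T hT ξ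
  have hbox : Pool.Agent.N121.OH.BX (Pool.Agent.N121.BF.wt n q) T = Box n q T := by
    unfold Pool.Agent.N121.OH.BX Box Pool.Agent.N121.BF.wt
    simp
  rw [hbox] at hE1 hE2 hE3
  refine ⟨E, hE1, hE2, fun b hb hbE => ?_⟩
  obtain ⟨e, he, h1, h2, h3⟩ := hE3 b hb hbE
  set a : (Σ j, Fin (n j + 2)) → ℂ := Pool.Agent.N121.BF.Lm w fun p => ((b p : ℤ) : ℂ) with ha
  have hpol : ∀ j, pol n w b j = Pool.Agent.N121.AH.fp (Pool.Agent.Y890.MV.pj a j) := fun j => rfl
  have hlead : ∀ j, (pol n w b j).coeff (n j + 1) = a ⟨j, Fin.last (n j + 1)⟩ := by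
    intro j
    rw [hpol, Pool.Agent.N121.AH.fp_coeff, dif_pos (by omega)]
    rfl
  have hroot : ∀ j (c : ℂ) (e : Fin (n j + 1) → ℂ) (l : Fin (n j)) (x : ℂ), root c e l x =
      Pool.Agent.N121.AH.rtG c e l x := by
    intro j c e l x
    unfold root Pool.Agent.N121.AH.rtG Pool.Agent.N121.AH.scf Pool.Agent.N121.OH.rtF Pool.Agent.N121.AH.w0
      Pool.Agent.N121.AH.u0
    rw [pow_add Complex.I]
    ring
  have hper : (fun j => periods (pol n w b j) (e j)) = Pool.Agent.N121.AH.PM n a e := by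
    funext j
    ext l i
    unfold periods Pool.Agent.N121.AH.PM Pool.Agent.N121.AH.PF
    rw [Matrix.of_apply, Matrix.mul_apply]
    refine Finset.sum_congr rfl fun k _ => ?_
    rw [Matrix.of_apply]
    congr 1
    unfold period Pool.Agent.N121.AH.perG
    simp only [hroot]
    rfl
  have htor : Torsor n = Pool.Agent.N121.AH.TorG n := by
    have hq : ∀ j, (polDR (n j)).map (algebraMap ℚ ℂ) = Pool.Agent.N121.AH.q0 ℂ (n j) := by
      intro j
      ext r s
      rw [Matrix.map_apply]
      unfold polDR Pool.Agent.N121.AH.q0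
      rw [Matrix.of_apply, Matrix.of_apply]
      split_ifs <;> simp
    ext x
    unfold Torsor Pool.Agent.N121.AH.TorG
    simp only [Set.mem_ofPred_eq, hq]
    rfl
  refine ⟨e, fun j => ⟨?_, ?_, (he j).2.2⟩, ?_, ?_, ?_⟩
  · rw [hlead]
    exact (he j).1
  · rw [hlead, hpol]
    exact (he j).2.1
  · rw [htor, hper]
    exact h1
  · rw [hper]
    intro P hd hc h0 Y hY
    rw [htor] at hY
    exact h3 P hd hc h0 Y hY
  · rw [hper]
    intro K _ _ φ P hK hd hc h0 x hx
    rw [htor] at hx
    exact h2 K φ P hK hd hc h0 x hx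

end Pool.Agent.Results.MP_12eca1_ag.CurvesOverArbitraryFields
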