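import Pool.Agent.N113.ME.Core

set_option autoImplicit false

/-!
# Period torsors of the motives attached to abelian varieties of middle exterior type

Let `A` be an abelian variety over `ℚ̄` and let `M` be any André motive over `ℚ̄` in the tensor
category generated by `h^1(A)` and the Tate motives. Let `P` be the matrix of the periods of `M`, and
let `G ⊆ GL(H_B(M))` be *any* algebraic group over `ℚ` such that the comparison isomorphism of `M` is a
point of a torsor of `G` defined over `ℚ̄`: `P T ∈ G(ℂ)` for some matrix `T` with algebraic entries.
By theorems of Deligne and André the motivic Galois group of `M` is the Mumford-Tate group `MT(M)`. The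
period conjecture says that `P` is a generic point, over `ℚ̄`, of a torsor of `MT(M)`; in particular it
predicts that every such `G` contains `MT(M)`. We prove this prediction for all `M`, if `A` is of the
following type.

Let `𝔤` be the Lie algebra of the endomorphisms of `H_1(A, ℚ)` which annihilate all classes that are
Hodge classes and de Rham-Betti classes; it is the Lie algebra of the Hodge group of `A`.

**Middle exterior type** (`TypeMiddle A k m`): the space `H_1(A, ℂ)` is the space of the vectors with
`m` particles of each of the `k` colours in a module over the algebra of the canonical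
anticommutation relations with `2 m` modes of each of the `k` colours. In other words: as a
representation of the sum of `k` Lie algebras `sl(2m)`, it is a sum of copies of the tensor product of
the `k` *middle exterior powers* `⋀^m(ℂ^{2m})`. We assume that `𝔤 ⊗ ℂ` is *contained* in this sum of
`k` Lie algebras `sl(2m)`, and that the associative algebra generated by `𝔤 ⊗ ℂ` contains the operators
of the number-preserving quadratic expressions `a σ i * b σ j` on `H_1(A, ℂ)` (that is, no
endomorphisms of `H_1(A, ℚ)` respect the Hodge structure besides those which commute with the sum of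
the `k` Lie algebras). Nothing else is assumed about the Hodge group; it is part of the proof that
`𝔤 ⊗ ℂ` is the whole sum (`Pool.Agent.N113.ME.eq_slC`).

**Theorem.** Let `A` be of middle exterior type. For all motives `M` in the tensor category generated
by `h^1(A)` and the Tate motives, and all algebraic groups `G` over `ℚ` with a torsor over `ℚ̄` which
contains the periods of `M`, the group `G` contains the Mumford-Tate group of `M`. The group `G` is
not assumed to be connected, reductive, or related to Hodge classes. (Equivalently: all de Rham-Betti
classes in the tensor constructions of `M` are Hodge classes.)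

Examples of such abelian varieties (explanations, not part of the statement):

* `m = 1`: the representation is the tensor product of `k` standard representations of `sl(2)`. These
  are the abelian varieties of Mumford and their generalizations (corestriction of a quaternion
  algebra over a totally real field of degree `k`); for `k = 3` the four-dimensional abelian varieties
  with `End = ℤ` whose Hodge group is not the symplectic group.
* `k = 1`, `m = 2`: as `⋀^2(ℂ^4)` is the standard representation of `so(6)`, the abelian varieties of
  dimension six whose algebra of endomorphisms is a definite quaternion algebra over `ℚ` (Albert's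
  type III, rank three). The inclusion `𝔤 ⊗ ℂ ⊆ so(6)` holds because the endomorphisms and the
  polarization are respected, and the condition on the associative algebra holds because the algebra of
  the endomorphisms is not larger. The group of the real points of the Hodge group is `SO*(6)`, and
  there are exceptional Hodge classes on some powers of `A` (from the determinant).
* the families of Satake: unitary groups of signature `(1, 2m - 1)` over a totally real field of degree
  `k` (and `(0, 2m)` at the other places), acting on tensor products of middle exterior powers; the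
  Mumford-Tate domain is the complex ball of dimension `2m - 1`.

The motives `M` include motives of even weight (for example the motives of rank `dim 𝔤`, `ad`), about
whose periods the theorem of Wüstholz says nothing, since the period matrix of `A` is not a matrix of
periods in the tensor category generated by `M`.

Nothing is assumed about periods: `AbVar` is the description of an abelian variety over `ℚ̄` by theta
functions (see `Pool/Agent/Y102/AVDefs.lean`, where it is explained why every abelian variety has it),
and the transcendence theorems which are used, the theorem of Schneider and Lang and the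
transcendence of `π`, are proved in this repository.

## Motives

As `h^1(A)` is dual to `h^1(A)(1)`, the motive `M` is a direct factor of a sum of motives
`h^1(A) ^ {⊗ r i} (w i)`. Its Betti realization is a space of families of multilinear forms with
rational values, in `r i` variables in `H_1(A, ℚ)`, with a basis `B`. It is the image of a motivated
projector, and the realizations of motivated classes are Hodge classes and de Rham-Betti classes; so
it is stable under the Lie algebra `𝔤` (`InLie`), and under the weights. The de Rham realization has a
basis which consists of combinations of products of elements of `H^1_dR(A / ℚ̄)` with algebraic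
coefficients. The matrix `P` of the periods expresses it in terms of the basis `(2 π i) ^ (w i) B` of
the Betti realization (`IsMotive`).

## Proof

The theorem on Lie algebras (`Pool.Agent.R918.MidHyp.all_mem`, proved in the files
`Pool/Agent/R918/Mid*.lean`, which were not used by any result so far): a Lie subalgebra of the sum of
the `k` Lie algebras `sl(2m)` whose enveloping associative algebra on the tensor product of the middle
exterior powers is the whole one is the whole sum. (The orthogonal algebra `so(2m)`, which is
irreducible on the other exterior powers, is not irreducible on the middle one.) We apply it twice: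
to `𝔤` itself (so that `𝔤` is a form of the sum, and is perfect), and to the Lie algebra `𝔮` of the
elements of `𝔤` whose action on `M` is in the Lie algebra of `G` up to a multiple of the weight. By the
theorem of Schneider and Lang `𝔮` acts semisimply on `H_1(A, ℚ)` with the same commutant as `𝔤`
(`Pool.Agent.N208.AM.qM_full`), so `𝔮 = 𝔤`. As `𝔤` is perfect, the action of `𝔤` on `M` is in the Lie
algebra of `G` (without the weights), and the centre of `𝔤` acts trivially on `M`, so that the
transcendence of `π` shows that the weights are in the Lie algebra of `G`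
(`Pool.Agent.N208.AM.Wt_mem`). The complex structure is in the real span of `𝔤`.
-/

open Module Matrix Pool.Agent.Y102 Pool.Agent.W516.DR Pool.Agent.H204R3.GP

noncomputable section

namespace Pool.Agent.Results.MP_12eca1_ag.MiddleExteriorMotives

variable {g : ℕ} (A : AbVar g)

/-! ### The Lie algebra -/

/-- The multilinear forms in `2m` variables in the rational homology. -/
abbrev Form (m : ℕ) : Type := MultilinearMap ℚ (fun _ : Fin m × Fin 2 => A.H1) ℚ

/-- `φ` is a de Rham-Betti class in `H^1(A) ^ {⊗ 2m} (m)`. -/
def IsDRB {m : ℕ} (φ : Form A m) : Prop :=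
  IsDeRhamBettiForm QBar A.dR (2 * Real.pi * Complex.I) m φ

/-- `φ` is a Hodge class in `H^1(A) ^ {⊗ 2m} (m)`. -/
def IsHodge {m : ℕ} (φ : Form A m) : Prop := IsHodgeTensor (A.per : A.H1 →+ (Fin g → ℂ)) φ

/-- The endomorphism `X` annihilates the form `φ` (as a derivation). -/
def Annihilates {m : ℕ} (X : Module.End ℚ A.H1) (φ : Form A m) : Prop :=
  ∀ v, ∑ k, φ (Function.update v k (X (v k))) = 0

/-- `X` is in the Lie algebra `𝔤`: it annihilates all classes that are Hodge classes and
de Rham-Betti classes. -/
def InLie (X : Module.End ℚ A.H1) : Prop :=
  ∀ (m : ℕ) (φ : Form A m), IsHodge A φ → IsDRB A φ → Annihilates A X φ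

/-- The algebra of the endomorphisms of `H_1(A, ℂ)`, as matrices for the basis of the lattice. -/
abbrev EndC (_ : AbVar g) : Type := Matrix (Fin (2 * g)) (Fin (2 * g)) ℂ

/-- The matrix of the extension of an endomorphism of `H_1(A, ℚ)` to `H_1(A, ℂ)`. -/
def toC (X : Module.End ℚ A.H1) : EndC A := Matrix.of fun i j => (X (Pi.single j 1) i : ℂ)

/-- The complex Lie algebra `𝔤 ⊗ ℂ`, acting on `H_1(A, ℂ)`. -/
def lieC : Submodule ℂ (EndC A) := Submodule.span ℂ {Y | ∃ X, InLie A X ∧ Y = toC A X}

/-! ### The middle exterior type -/

section Mid

variable {N k n : ℕ}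

/-- The canonical anticommutation relations for the creation operators `a σ i` and the annihilation
operators `b σ i`, where `σ` is the colour. -/
def Car (a b : Fin k → Fin n → Matrix (Fin N) (Fin N) ℂ) : Prop :=
  (∀ σ i τ j, a σ i * a τ j = -(a τ j * a σ i)) ∧
  (∀ σ i τ j, b σ i * b τ j = -(b τ j * b σ i)) ∧
  ∀ σ i τ j, a σ i * b τ j + b τ j * a σ i = if σ = τ ∧ i = j then 1 else 0

/-- The action of the matrix `x` on the exterior algebra of the colour `σ`, in terms of creation and
annihilation operators. -/
def quant (a b : Fin k → Fin n → Matrix (Fin N) (Fin N) ℂ) (σ : Fin k)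
    (x : Matrix (Fin n) (Fin n) ℂ) : Matrix (Fin N) (Fin N) ℂ :=
  ∑ i, ∑ j, x i j • (a σ i * b σ j)

end Mid

/-- Abelian varieties of middle exterior type, with `k` colours: the inclusion `Q` identifies
`H_1(A, ℂ)` with the space of the vectors with `m` particles of each colour (the number operator of
the colour `σ` is `quant a b σ 1`), with the left inverse `P` of `Q`, for some operators `a`, `b` which
satisfy the canonical anticommutation relations with `2 m` modes of each colour. The Lie algebra
`𝔤 ⊗ ℂ` is contained in the sum of the `k` Lie algebras `sl(2m)`, and the associative algebra which it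
generates contains the operators defined by `a σ i * b σ j`. -/
def TypeMiddle (k m : ℕ) : Prop :=
  ∃ (N : ℕ) (a b : Fin k → Fin (2 * m) → Matrix (Fin N) (Fin N) ℂ)
    (P : Matrix (Fin (2 * g)) (Fin N) ℂ) (Q : Matrix (Fin N) (Fin (2 * g)) ℂ),
    Car a b ∧ P * Q = 1 ∧
    (∀ v, (∃ u, v = Q.mulVec u) ↔ ∀ σ, (quant a b σ 1).mulVec v = (m : ℂ) • v) ∧
    lieC A ≤ Submodule.span ℂ {Y | ∃ σ x, Matrix.trace x = 0 ∧ Y = P * quant a b σ x * Q} ∧
    ∀ σ i j, P * (a σ i * b σ j) * Q ∈ Algebra.adjoin ℂ (lieC A : Set (EndC A))

/-! ### Motives -/

variable {s n : ℕ} (r : Fin s → ℕ) (w : Fin s → ℤ)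

/-- The Betti realization of the sum of the motives `h^1(A) ^ {⊗ r i} (w i)`: families of multilinear
forms in `r i` variables in the rational homology. -/
abbrev Tensors : Type := ∀ i : Fin s, MultilinearMap ℚ (fun _ : Fin (r i) => A.H1) ℚ

variable {A r}

/-- `M` is the matrix of the action of the endomorphism `X` of the rational homology of `A` (as a
derivation) on the space of tensors with the basis `B`. -/
def IsLieMatrix (B : Fin n → Tensors A r) (X : Module.End ℚ A.H1)
    (M : Matrix (Fin n) (Fin n) ℚ) : Prop :=
  ∀ a i v, ∑ k, B a i (Function.update v k (X (v k))) = ∑ b, M b a * B b i v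

/-- The subspace with the basis `B` is the Betti realization of a direct factor `M` of the sum of the
motives `h^1(A) ^ {⊗ r i} (w i)`, and `P` is the matrix of the periods of `M` for the basis `B` and for
some basis of the de Rham realization of `M` over `ℚ̄`. -/
structure IsMotive (B : Fin n → Tensors A r) (P : Matrix (Fin n) (Fin n) ℂ) : Prop where
  /-- `B` is a basis of a subspace -/
  basis : LinearIndependent ℚ B
  /-- the subspace is stable under `𝔤` -/
  lie : ∀ X, InLie A X → ∃ M : Matrix (Fin n) (Fin n) ℚ, IsLieMatrix B X M
  /-- the subspace is stable under the weights -/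
  weight : ∃ M : Matrix (Fin n) (Fin n) ℚ, ∀ a i v,
    ((r i : ℚ) - 2 * w i) * B a i v = ∑ b, M b a * B b i v
  /-- the de Rham realization has a basis of elements with algebraic coefficients in terms of the
  tensor products of the elements of the basis of `H^1_dR(A / ℚ̄)` -/
  deRham : ∃ c : Fin n → ∀ i : Fin s, (Fin (r i) → Fin g ⊕ Fin g) → ℂ,
    (∀ a i J, IsAlgebraic ℚ (c a i J)) ∧ ∀ a i (v : Fin (r i) → A.H1),
      ∑ J, c a i J * ∏ k, A.dR (J k) (v k) =
        (2 * Real.pi * Complex.I) ^ (w i) * ∑ b, P b a * (B b i v : ℂ)
  /-- the matrix of the periods is invertible -/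
  det : P.det ≠ 0

/-! ### Algebraic groups, torsors and the Mumford-Tate group -/

/-- A subgroup of `GL_R(ℂ)` defined by polynomials with rational coefficients. -/
def IsAlgebraicSubgroup {R : Type} [Fintype R] [DecidableEq R] (G : Subgroup (GL R ℂ)) : Prop :=
  ∃ I : Set (MvPolynomial (R × R) ℚ), ∀ x : GL R ℂ, x ∈ G ↔
    ∀ p ∈ I, MvPolynomial.aeval (fun b : R × R => (x : Matrix R R ℂ) b.1 b.2) p = 0

/-- The torsor `G · T⁻¹` of `G`: the matrices `F` such that `F T` is an element of `G`. It is
defined over `ℚ̄` if `T` is a matrix with algebraic entries. -/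
def torsor (G : Subgroup (GL (Fin n) ℂ)) (T : Matrix (Fin n) (Fin n) ℂ) :
    Set (Matrix (Fin n) (Fin n) ℂ) :=
  {F | ∃ x ∈ G, (x : Matrix (Fin n) (Fin n) ℂ) = F * T}

variable (A) in
/-- The Hodge structure of `H^1(A)`: the complex number `z` acts on `H_1(A, ℝ) = ℂ ^ g` by
multiplication, and on `H^1(A, ℝ)` by the transposed map, here in the basis of `H^1(A, ℚ)` which is
dual to the basis of the lattice. -/
def hodge (z : ℂ) : Matrix (Fin (2 * g)) (Fin (2 * g)) ℂ :=
  Matrix.of fun i j => ((A.lam.repr (z • A.lam i) j : ℝ) : ℂ)

/-- `R` is the matrix of the action of the complex number `z` on `M`, in the Hodge structure given by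
those of `H^1(A)` and of the Tate motives (`z` acts on `ℚ(1)` by `(z z̄)⁻¹`). -/
def IsHodgeMatrix (B : Fin n → Tensors A r) (z : ℂ) (R : Matrix (Fin n) (Fin n) ℂ) : Prop :=
  ∀ a i (j : Fin (r i) → Fin (2 * g)),
    ∑ j' : Fin (r i) → Fin (2 * g), (∏ k, hodge A z (j k) (j' k)) *
        (B a i (fun k => Pi.single (j' k) 1) : ℂ) =
      (z * (starRingEnd ℂ) z) ^ (w i) * ∑ b, R b a * (B b i (fun k => Pi.single (j k) 1) : ℂ)

/-- The Mumford-Tate group of `M`: the smallest algebraic group over `ℚ` which contains the image of
the Deligne torus. -/
def mumfordTate (B : Fin n → Tensors A r) : Subgroup (GL (Fin n) ℂ) :=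
  sInf {G | IsAlgebraicSubgroup G ∧ ∀ z : ℂ, z ≠ 0 → ∃ x ∈ G,
    IsHodgeMatrix w B z (x : Matrix (Fin n) (Fin n) ℂ)}

/-- **Theorem.** Let `A` be an abelian variety of middle exterior type. Let `M` be a motive in the
tensor category generated by `h^1(A)` and the Tate motives, with the matrix `P` of periods, and let `G`
be an algebraic group over `ℚ` with a torsor over `ℚ̄` which contains `P`. Then `G` contains the
Mumford-Tate group of `M`. -/
theorem result {g k m s n : ℕ} (A : AbVar g) (hA : TypeMiddle A k m) (r : Fin s → ℕ)
    (w : Fin s → ℤ) (B : Fin n → Tensors A r) (P : Matrix (Fin n) (Fin n) ℂ) (hM : IsMotive w B P)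
    (G : Subgroup (GL (Fin n) ℂ)) (hG : IsAlgebraicSubgroup G) (T : Matrix (Fin n) (Fin n) ℂ)
    (hT : ∀ i j, IsAlgebraic ℚ (T i j)) (hP : P ∈ torsor G T) : mumfordTate w B ≤ G := by
  obtain ⟨N, a, b, P', Q', ⟨c1, c2, c3⟩, hPQ, hQ, hle, hgen⟩ := hA
  obtain ⟨hrig, hper⟩ := N113.ME.rigid_of_middle (A := A) c1 c2 c3 hPQ hQ hle hgen
  obtain ⟨hM', Wt, hW⟩ : N208.AM.Mot w B P ∧ ∃ Wt, N208.AM.WRel w B Wt := by
    have hwt : ∃ M, N208.AM.WRel w B M := by
      obtain ⟨M, h⟩ := hM.weight
      refine ⟨M, fun a i => MultilinearMap.ext fun v => ?_⟩
      rw [_root_.smul_apply, _root_.sum_apply, smul_eq_mul, h a i v]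
      rfl
    refine ⟨⟨hM.basis, fun X hX => ?_, hwt, hM.det, hM.deRham⟩, hwt⟩
    obtain ⟨M, h⟩ := hM.lie X hX
    refine ⟨M, fun a i => MultilinearMap.ext fun v => ?_⟩
    rw [N208.AM.dact_apply, _root_.sum_apply, h a i v]
    rfl
  have hb : ∀ j : Fin (2 * g), A.bas j = Pi.single j 1 := fun j => by
    unfold AbVar.bas
    rw [Pi.basisFun_apply]
  have hrel : ∀ z R, N208.AM.HRel w B z R → IsHodgeMatrix w B z R := by
    intro z R h a i j
    have h1 := h a i j
    simp only [hb] at h1
    exact h1
  -- the group
  have hdet : T.det ≠ 0 := by
    obtain ⟨x, -, hxT⟩ := hP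
    intro h0
    have h1 : (x : Matrix (Fin n) (Fin n) ℂ).det = 0 := by
      rw [hxT, Matrix.det_mul, h0, mul_zero]
    exact (Matrix.GeneralLinearGroup.det x).ne_zero h1
  obtain ⟨T', h1, h2⟩ := Pool.Agent.R917.alg_inv hT hdet
  obtain ⟨x, hx, hxT⟩ := hP
  have hH : N208.AM.PtM P _ := ⟨Pool.Agent.R917.algGrp_of hG, T, T', h1, h2, x, hx, hxT⟩
  obtain ⟨N0, hN, -⟩ := N208.AM.exists_J hM'
  refine sInf_le ⟨hG, fun z hz => ?_⟩
  obtain ⟨⟨x, hx, hx'⟩, h4⟩ := N113.ME.all_B hM' hW hH hrig hper hN hz
  refine ⟨x, hx, ?_⟩
  rw [hx']
  exact hrel _ _ h4

end Pool.Agent.Results.MP_12eca1_ag.MiddleExteriorMotives
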