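import Pool.Agent.N733.TG.M
import Pool.Agent.Results.MP_12eca1_ag.RelativeHyperelliptic

/-!
# The period conjecture relative to growing spaces of constants at tuples of values of multiplicative functions

Let `f_1, …, f_N ∈ ℚ[X]` be monic of even degree `n` with distinct real roots, all different from `0`. For a positive
integer `t` let `C_j(t)` be the curve `y² = f_j(x) (x - 1/t)`. Let `F_1, …, F_N` be positive multiplicative functions of
polynomial growth with `F_j p ≤ M p` at the large primes, injective there: for example Euler's function and the sum of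
the divisors. Then there is `ω(K) → ∞` such that for EVERY `ℚ`-space `V` of complex numbers of dimension `≤ ω(K)`, for all
but `K^N / (log K)^ω(K)` of the tuples `1 ≤ v_j ≤ K`, the relations of degree `≤ ω(K)` with coefficients in `V` between the
periods of the curves `C_j(F_j(v_j))` are those which hold on the whole torsor given by the polarisations. Let for example
`k ⊂ ℂ` be any countable field and `M₀` a motive over `k`, and let `V = V_K` exhaust the field generated by `k` and the
periods of `M₀`: then every given relation over this field (so any fixed relation of the periods of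
`M₀ ⊕ ⨁ h¹(C_j(F_j(v_j)))` over `k`) which is not a consequence of the polarisations fails for all `v_j ≤ K` but
`o(K^N)`.

The values of the `F_j` are taken with large multiplicities, so this does not follow from the size of the exceptional
set. Proof: the starting theorem `RelativeHyperelliptic` bounds the exceptional set; the tool of helper733 shows that
multiplicative functions avoid sets with a power saving; the functions `ω` come from a diagonal argument.
-/

set_option autoImplicit false

open Polynomial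

namespace Pool.Agent.Results.MP_12eca1_ag.MultiplicativeValues

open Pool.Agent.N733.TG (LM lm_totient lm_sigma keep_tuples2)
open Pool.Agent.Results.MP_12eca1_ag.RelativeHyperelliptic (branch period Fibre entries)

variable {n N : ℕ}

/-- the points `1 / t_j` are in the gap number `m_j` of the roots of `f_j` (that of `0`), the period matrices of the
curves `y² = f_j(x) (x - 1/t_j)` are on the torsor `Fibre`, and every polynomial of degree `≤ d` with coefficients in `V`
which vanishes at the period matrices vanishes on the torsor -/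
def Surplus (a : Fin N → Fin n → ℝ) (f : Fin N → ℚ[X]) (m : Fin N → Fin (n + 1)) (d : ℕ) (V : Submodule ℚ ℂ)
    (t : Fin N → ℕ) : Prop :=
  (∀ j, StrictMono (branch (a j) (m j) (1 / (t j : ℝ)))) ∧
  (fun j => Matrix.of (period (branch (a j) (m j) (1 / (t j : ℝ))))) ∈
    Fibre (n := n) (fun j => f j * (X - C (1 / (t j : ℚ)))) ∧
  ∀ P : MvPolynomial (Fin N × Fin n × Fin n) ℂ, P.totalDegree ≤ d → (∀ s, P.coeff s ∈ V) →
    MvPolynomial.eval (entries fun j => Matrix.of (period (branch (a j) (m j) (1 / (t j : ℝ))))) P = 0 →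
    ∀ Y ∈ Fibre (n := n) (fun j => f j * (X - C (1 / (t j : ℚ)))), MvPolynomial.eval (entries Y) P = 0

/-- bounded degree and dimension -/
lemma bounded (hN : 1 ≤ N) (hn : Even n) (a : Fin N → Fin n → ℝ) (f : Fin N → ℚ[X])
    (hf : ∀ j, (f j).map (algebraMap ℚ ℝ) = ∏ i, (X - C (a j i))) (m : Fin N → Fin (n + 1))
    (h0 : ∀ j, StrictMono (branch (a j) (m j) 0)) (F : Fin N → ℕ → ℕ) (hF : ∀ j, LM (F j)) (D d A : ℕ) :
    ∃ K₀ : ℕ, ∀ K : ℕ, K₀ ≤ K → ∀ V : Submodule ℚ ℂ, Module.Finite ℚ V → Module.finrank ℚ V ≤ D →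
      ({v : Fin N → ℕ | (∀ j, 1 ≤ v j ∧ v j ≤ K) ∧ ¬ Surplus a f m d V (fun j => F j (v j))}.ncard : ℝ) ≤
        (K : ℝ) ^ N / Real.log K ^ A := by
  obtain ⟨c, M, hc, hmain⟩ := Pool.Agent.Results.MP_12eca1_ag.RelativeHyperelliptic.result hn a f hf m h0 D d
  obtain ⟨K₀, hK₀⟩ := keep_tuples2 hN hF hc A M
  refine ⟨K₀, fun K hK V hV hVD => ?_⟩
  have h1 := hK₀ K hK {t | ¬ Surplus a f m d V t} (fun T hT => by
    obtain ⟨S, hS1, hS2⟩ := hmain V hV hVD T hT
    refine le_trans ?_ hS1
    have h2 : {w : Fin N → ℕ | (∀ i, 2 ≤ w i ∧ w i ≤ T) ∧ w ∈ {t | ¬ Surplus a f m d V t}} ⊆ (S : Set (Fin N → ℕ)) := by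
      rintro w ⟨h3, h4⟩
      by_contra h5
      exact h4 (hS2 w (fun j => ⟨by have := (h3 j).1; omega, (h3 j).2⟩) h5)
    have h3 := Set.ncard_le_ncard h2 S.finite_toSet
    rw [Set.ncard_coe_finset] at h3
    exact_mod_cast h3)
  refine le_trans ?_ h1
  have hfin : {v : Fin N → ℕ | (∀ i, 1 ≤ v i ∧ v i ≤ K) ∧
      ¬ ((∀ i, 2 ≤ F i (v i)) ∧ (fun i => F i (v i)) ∉ {t | ¬ Surplus a f m d V t})}.Finite := by
    apply (Fintype.piFinset (fun _ : Fin N => Finset.Icc 1 K)).finite_toSet.subset
    intro v hv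
    rw [Finset.mem_coe, Fintype.mem_piFinset]
    exact fun i => Finset.mem_Icc.2 (hv.1 i)
  have h2 : {v : Fin N → ℕ | (∀ j, 1 ≤ v j ∧ v j ≤ K) ∧ ¬ Surplus a f m d V (fun j => F j (v j))} ⊆
      {v : Fin N → ℕ | (∀ i, 1 ≤ v i ∧ v i ≤ K) ∧
      ¬ ((∀ i, 2 ≤ F i (v i)) ∧ (fun i => F i (v i)) ∉ {t | ¬ Surplus a f m d V t})} := by
    rintro v ⟨h3, h4⟩
    exact ⟨h3, fun h5 => h5.2 h4⟩
  exact_mod_cast Set.ncard_le_ncard h2 hfin

/-- Let `f_j ∈ ℚ[X]`, `j < N`, `N ≥ 1`, be monic of even degree `n` with distinct real roots `a_j`, all different from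
`0`; `m_j` is the place of `0` among the roots. Let `F_j` be positive multiplicative functions of at most polynomial
growth with `F_j p ≤ M p` at the large primes and injective there (`LM`). There is `ω : ℕ → ℕ`, `ω → ∞`, such that for all
`K ≥ 1` and all `ℚ`-subspaces `V` of `ℂ` of dimension `≤ ω(K)`, for all but `K^N / (log K)^ω(K)` of the tuples of integers
`1 ≤ v_j ≤ K`, with `t_j = F_j(v_j)`: the `1 / t_j` are in the same gaps as `0`, the period matrices of the curves
`y² = f_j(x) (x - 1/t_j)` are on the torsor `Fibre`, and every polynomial of degree `≤ ω(K)` with coefficients in `V` which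
vanishes at the period matrices vanishes on the torsor. Euler's function and the sum of the divisors satisfy `LM`. -/
theorem result :
    (∀ (n N : ℕ), 1 ≤ N → Even n → ∀ (a : Fin N → Fin n → ℝ) (f : Fin N → ℚ[X]),
      (∀ j, (f j).map (algebraMap ℚ ℝ) = ∏ i, (X - C (a j i))) → ∀ m : Fin N → Fin (n + 1),
      (∀ j, StrictMono (branch (a j) (m j) 0)) → ∀ F : Fin N → ℕ → ℕ, (∀ j, LM (F j)) →
      ∃ ω : ℕ → ℕ, Filter.Tendsto ω Filter.atTop Filter.atTop ∧ ∀ K : ℕ, 1 ≤ K → ∀ V : Submodule ℚ ℂ,
        Module.Finite ℚ V → Module.finrank ℚ V ≤ ω K →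
        ({v : Fin N → ℕ | (∀ j, 1 ≤ v j ∧ v j ≤ K) ∧ ¬ Surplus a f m (ω K) V (fun j => F j (v j))}.ncard : ℝ) ≤
          (K : ℝ) ^ N / Real.log K ^ (ω K)) ∧
    (LM Nat.totient ∧ LM (fun m => ∑ d ∈ m.divisors, d)) := by
  classical
  refine ⟨fun n N hN hn a f hf m h0 F hF => ?_, lm_totient, lm_sigma⟩
  have h1 := fun r : ℕ => bounded hN hn a f hf m h0 F hF r r r
  choose K₀ hK₀ using h1
  refine ⟨fun K => Nat.findGreatest (fun r => r = 0 ∨ K₀ r ≤ K) K, ?_, fun K hK V hV hVD => ?_⟩
  · rw [Filter.tendsto_atTop]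
    intro R
    filter_upwards [Filter.eventually_ge_atTop (max R (K₀ R))] with K hK
    exact Nat.le_findGreatest ((le_max_left _ _).trans hK) (Or.inr ((le_max_right _ _).trans hK))
  · obtain ⟨r, hr⟩ : ∃ r, r = Nat.findGreatest (fun r => r = 0 ∨ K₀ r ≤ K) K := ⟨_, rfl⟩
    have h2 : r = 0 ∨ K₀ r ≤ K := by
      rw [hr]
      exact Nat.findGreatest_spec (P := fun r => r = 0 ∨ K₀ r ≤ K) (Nat.zero_le K) (Or.inl rfl)
    dsimp only at hVD ⊢
    rw [← hr] at hVD ⊢
    rcases h2 with h2 | h2
    · rw [h2, pow_zero, div_one]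
      have h3 : {v : Fin N → ℕ | (∀ j, 1 ≤ v j ∧ v j ≤ K) ∧ ¬ Surplus a f m 0 V (fun j => F j (v j))} ⊆
          ((Fintype.piFinset (fun _ : Fin N => Finset.Icc 1 K) : Finset (Fin N → ℕ)) : Set (Fin N → ℕ)) := by
        rintro v ⟨h4, _⟩
        rw [Finset.mem_coe, Fintype.mem_piFinset]
        exact fun i => Finset.mem_Icc.2 (h4 i)
      have h4 := Set.ncard_le_ncard h3 (Finset.finite_toSet _)
      rw [Set.ncard_coe_finset, Fintype.card_piFinset, Finset.prod_const, Nat.card_Icc, Finset.card_univ,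
        Fintype.card_fin, Nat.add_sub_cancel] at h4
      exact_mod_cast h4
    · exact hK₀ r K h2 V hV hVD

end Pool.Agent.Results.MP_12eca1_ag.MultiplicativeValues
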